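import Mathlib

/-!
# No small triangles of a prescribed shape congruent to their images

The homeomorphism `z ↦ ((5 - ‖z‖ ^ 2) / 4) • z` of the closed unit disk has, for every prescribed
triple of angles, no arbitrarily small triangles with these angles congruent to their images.
-/

namespace Pool.Agent.Results.MP_623bad_gt.NoSimilarSmall

open Metric Set
open scoped EuclideanGeometry RealInnerProductSpace

/-- The Euclidean plane. -/
abbrev Plane : Type := EuclideanSpace ℝ (Fin 2)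

/-- The closed unit disk, as a metric space. -/
abbrev Disk : Type := closedBall (0 : Plane) 1

/-- `p₁ p₂ p₃` is a (non-degenerate) triangle with interior angles `α`, `β`, `γ` at `p₁`, `p₂`,
`p₃`. -/
def HasAngles (α β γ : ℝ) (p₁ p₂ p₃ : Plane) : Prop :=
  ¬ Collinear ℝ {p₁, p₂, p₃} ∧ EuclideanGeometry.angle p₂ p₁ p₃ = α ∧
    EuclideanGeometry.angle p₁ p₂ p₃ = β ∧ EuclideanGeometry.angle p₁ p₃ p₂ = γ

/-- The triangle `p₁ p₂ p₃` is congruent to its image under `T`. -/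
def CongruentToImage (T : Disk → Disk) (p₁ p₂ p₃ : Disk) : Prop :=
  dist (T p₁) (T p₂) = dist p₁ p₂ ∧ dist (T p₁) (T p₃) = dist p₁ p₃ ∧
    dist (T p₂) (T p₃) = dist p₂ p₃

/-- The radial map. -/
noncomputable def rad (z : EuclideanSpace ℝ (Fin 2)) : EuclideanSpace ℝ (Fin 2) :=
  ((5 - ‖z‖ ^ 2) / 4) • z

lemma rad_continuous : Continuous rad := by
  unfold rad
  fun_prop

lemma norm_rad {z : EuclideanSpace ℝ (Fin 2)} (hz : ‖z‖ ≤ 1) :
    ‖rad z‖ = (5 * ‖z‖ - ‖z‖ ^ 3) / 4 := by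
  unfold rad
  rw [norm_smul, Real.norm_of_nonneg]
  · ring
  · nlinarith [norm_nonneg z]

lemma rad_mem {z : EuclideanSpace ℝ (Fin 2)} (hz : ‖z‖ ≤ 1) : ‖rad z‖ ≤ 1 := by
  rw [norm_rad hz]
  have h0 := norm_nonneg z
  nlinarith [mul_nonneg h0 (sub_nonneg.2 hz), mul_nonneg (mul_nonneg h0 h0) (sub_nonneg.2 hz),
    sq_nonneg (‖z‖ - 1), mul_nonneg (sub_nonneg.2 hz) (sub_nonneg.2 hz)]

/-- The profile is injective on `[0, 1]`. -/
lemma profile_inj {s t : ℝ} (hs : 0 ≤ s) (hs1 : s ≤ 1) (ht : 0 ≤ t) (ht1 : t ≤ 1)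
    (h : (5 * s - s ^ 3) / 4 = (5 * t - t ^ 3) / 4) : s = t := by
  have h1 : (s - t) * (5 - (s ^ 2 + s * t + t ^ 2)) = 0 := by nlinarith
  rcases mul_eq_zero.1 h1 with h2 | h2
  · linarith
  · exfalso
    nlinarith [mul_nonneg hs ht, mul_le_one₀ hs1 ht ht1]

lemma rad_inj {z w : EuclideanSpace ℝ (Fin 2)} (hz : ‖z‖ ≤ 1) (hw : ‖w‖ ≤ 1)
    (h : rad z = rad w) : z = w := by
  have h1 : ‖rad z‖ = ‖rad w‖ := by rw [h]
  rw [norm_rad hz, norm_rad hw] at h1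
  have h2 := profile_inj (norm_nonneg z) hz (norm_nonneg w) hw h1
  unfold rad at h
  rw [h2] at h
  have h3 : (5 - ‖w‖ ^ 2) / 4 ≠ 0 := by
    have := norm_nonneg w
    nlinarith
  exact smul_right_injective _ h3 h

lemma rad_surj {w : EuclideanSpace ℝ (Fin 2)} (hw : ‖w‖ ≤ 1) :
    ∃ z : EuclideanSpace ℝ (Fin 2), ‖z‖ ≤ 1 ∧ rad z = w := by
  by_cases h0 : w = 0
  · refine ⟨0, by simp, ?_⟩
    simp [rad, h0]
  have hwpos : 0 < ‖w‖ := norm_pos_iff.2 h0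
  -- intermediate value theorem for the profile
  have hcont : ContinuousOn (fun t : ℝ => (5 * t - t ^ 3) / 4) (Icc (0:ℝ) 1) := by
    fun_prop
  have hivt := intermediate_value_Icc (zero_le_one (α := ℝ)) hcont
  have hmem : ‖w‖ ∈ Icc ((fun t : ℝ => (5 * t - t ^ 3) / 4) 0) ((fun t : ℝ => (5 * t - t ^ 3) / 4) 1) := by
    constructor
    · simp
    · norm_num
      exact hw
  obtain ⟨t, ⟨ht0, ht1⟩, ht⟩ := hivt hmem
  have hz : ‖(t / ‖w‖) • w‖ = t := by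
    rw [norm_smul, Real.norm_of_nonneg (by positivity)]
    field_simp
  refine ⟨(t / ‖w‖) • w, by rw [hz]; exact ht1, ?_⟩
  unfold rad
  rw [hz, smul_smul]
  have h1 : (5 - t ^ 2) / 4 * (t / ‖w‖) = 1 := by
    have h2 : (5 * t - t ^ 3) / 4 = ‖w‖ := ht
    field_simp
    nlinarith
  rw [h1, one_smul]

/-- The radial map as a self-map of the closed disk. -/
noncomputable def radD (z : closedBall (0 : EuclideanSpace ℝ (Fin 2)) 1) :
    closedBall (0 : EuclideanSpace ℝ (Fin 2)) 1 :=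
  ⟨rad z, by
    have := z.2
    rw [mem_closedBall, dist_zero_right] at this ⊢
    exact rad_mem this⟩

lemma radD_bij : Function.Bijective radD := by
  constructor
  · intro z w h
    have h1 : rad z = rad w := congrArg Subtype.val h
    have hz := z.2
    have hw := w.2
    rw [mem_closedBall, dist_zero_right] at hz hw
    exact Subtype.ext (rad_inj hz hw h1)
  · intro w
    have hw := w.2
    rw [mem_closedBall, dist_zero_right] at hw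
    obtain ⟨z, hz, hzw⟩ := rad_surj hw
    refine ⟨⟨z, by rw [mem_closedBall, dist_zero_right]; exact hz⟩, ?_⟩
    exact Subtype.ext hzw

lemma radD_continuous : Continuous radD :=
  Continuous.subtype_mk (rad_continuous.comp continuous_subtype_val) _

instance : CompactSpace (closedBall (0 : EuclideanSpace ℝ (Fin 2)) 1) :=
  isCompact_iff_compactSpace.1 (isCompact_closedBall _ _)

/-- The homeomorphism. -/
noncomputable def T :
    closedBall (0 : EuclideanSpace ℝ (Fin 2)) 1 ≃ₜ closedBall (0 : EuclideanSpace ℝ (Fin 2)) 1 :=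
  Continuous.homeoOfEquivCompactToT2 (f := Equiv.ofBijective radD radD_bij) radD_continuous

lemma T_apply (z : closedBall (0 : EuclideanSpace ℝ (Fin 2)) 1) :
    ((T z : closedBall (0 : EuclideanSpace ℝ (Fin 2)) 1) : EuclideanSpace ℝ (Fin 2)) = rad z := rfl



lemma abs_E1 {x y a ε : ℝ} (hx : 0 ≤ x) (hx1 : x ≤ 1) (ha0 : 0 ≤ a) (h : |x - y| ≤ 2 * a)
    (ha : a ≤ ε) : |(4 + x) * (y - x) * a ^ 2 + (x - y) ^ 3| ≤ 18 * ε * a ^ 2 := by
  have h1 : |(4 + x) * (y - x) * a ^ 2| ≤ 10 * ε * a ^ 2 := by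
    rw [abs_mul, abs_mul, abs_of_nonneg (by linarith : (0:ℝ) ≤ 4 + x), abs_of_nonneg (sq_nonneg a),
      abs_sub_comm y x]
    have h2 : (4 + x) * |x - y| ≤ 5 * (2 * ε) := by
      apply mul_le_mul (by linarith) (by linarith) (abs_nonneg _) (by norm_num)
    nlinarith [sq_nonneg a]
  have h3 : |(x - y) ^ 3| ≤ 8 * ε * a ^ 2 := by
    rw [abs_pow]
    have h4 : |x - y| ^ 2 ≤ (2 * a) ^ 2 := by
      apply pow_le_pow_left₀ (abs_nonneg _) h
    have h5 : |x - y| ^ 3 = |x - y| * |x - y| ^ 2 := by ring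
    rw [h5]
    have h6 : |x - y| * |x - y| ^ 2 ≤ (2 * ε) * ((2 * a) ^ 2) := by
      apply mul_le_mul (by linarith) h4 (by positivity) (by linarith)
    nlinarith
  calc |(4 + x) * (y - x) * a ^ 2 + (x - y) ^ 3|
      ≤ |(4 + x) * (y - x) * a ^ 2| + |(x - y) ^ 3| := abs_add_le _ _
    _ ≤ 18 * ε * a ^ 2 := by linarith

lemma abs_E3 {x y z d ε : ℝ} (hx : 0 ≤ x) (hx1 : x ≤ 1) (hy : 0 ≤ y) (hy1 : y ≤ 1)
    (h1 : |x - y| ≤ 2 * ε) (h2 : |x - z| ≤ 2 * ε) (h3 : |y - z| ≤ 2 * d) :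
    |(4 * (y + z - 2 * x) + (y * z - x ^ 2)) * d ^ 2 - (y - z) ^ 2 * (y + z - 2 * x)|
      ≤ 36 * ε * d ^ 2 := by
  have hs : |y + z - 2 * x| ≤ 4 * ε := by
    have : y + z - 2 * x = -(x - y) + -(x - z) := by ring
    rw [this]
    calc |-(x - y) + -(x - z)| ≤ |-(x - y)| + |-(x - z)| := abs_add_le _ _
      _ ≤ 4 * ε := by rw [abs_neg, abs_neg]; linarith
  have hp : |y * z - x ^ 2| ≤ 4 * ε := by
    have : y * z - x ^ 2 = -(y * (x - z)) + -(x * (x - y)) := by ring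
    rw [this]
    calc |-(y * (x - z)) + -(x * (x - y))| ≤ |-(y * (x - z))| + |-(x * (x - y))| := abs_add_le _ _
      _ ≤ 4 * ε := by
        rw [abs_neg, abs_neg, abs_mul, abs_mul, abs_of_nonneg hx, abs_of_nonneg hy]
        nlinarith [abs_nonneg (x - z), abs_nonneg (x - y)]
  have hsq : (y - z) ^ 2 ≤ 4 * d ^ 2 := by
    have : |y - z| ^ 2 ≤ (2 * d) ^ 2 := pow_le_pow_left₀ (abs_nonneg _) h3 2
    rw [sq_abs] at this
    nlinarith
  have hA : |(4 * (y + z - 2 * x) + (y * z - x ^ 2)) * d ^ 2| ≤ 20 * ε * d ^ 2 := by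
    rw [abs_mul, abs_of_nonneg (sq_nonneg d)]
    have : |4 * (y + z - 2 * x) + (y * z - x ^ 2)| ≤ 20 * ε := by
      calc |4 * (y + z - 2 * x) + (y * z - x ^ 2)|
          ≤ |4 * (y + z - 2 * x)| + |y * z - x ^ 2| := abs_add_le _ _
        _ ≤ 20 * ε := by rw [abs_mul]; norm_num; linarith
    exact mul_le_mul_of_nonneg_right this (sq_nonneg d)
  have hB : |(y - z) ^ 2 * (y + z - 2 * x)| ≤ 16 * ε * d ^ 2 := by
    rw [abs_mul, abs_of_nonneg (sq_nonneg (y - z))]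
    calc (y - z) ^ 2 * |y + z - 2 * x| ≤ (4 * d ^ 2) * (4 * ε) :=
          mul_le_mul hsq hs (abs_nonneg _) (by positivity)
      _ = 16 * ε * d ^ 2 := by ring
  calc |(4 * (y + z - 2 * x) + (y * z - x ^ 2)) * d ^ 2 - (y - z) ^ 2 * (y + z - 2 * x)|
      ≤ |(4 * (y + z - 2 * x) + (y * z - x ^ 2)) * d ^ 2| + |(y - z) ^ 2 * (y + z - 2 * x)| :=
        abs_sub _ _
    _ ≤ 36 * ε * d ^ 2 := by linarith

/-- The algebraic core. -/
lemma core {t ε x y z a b d g m n : ℝ} (ht : 0 < t) (ht1 : t ≤ 1) (hε : ε = t ^ 3 / 200000)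
    (ha : 0 < a) (hb : 0 < b) (hd : 0 ≤ d) (haε : a ≤ ε) (hbε : b ≤ ε)
    (hda : d ≤ a) (hdb : d ≤ b) (hab : a ≤ 2 * b) (hba : b ≤ 2 * a)
    (hx : 0 ≤ x) (hx1 : x ≤ 1) (hy : 0 ≤ y) (hy1 : y ≤ 1)
    (h1 : |x - y| ≤ 2 * a) (h2 : |x - z| ≤ 2 * b) (h3 : |y - z| ≤ 2 * d)
    (H1 : (x - y) ^ 2 * (3 + x + y) = (4 * (x + y) + x * y) * a ^ 2)
    (H2 : (x - z) ^ 2 * (3 + x + z) = (4 * (x + z) + x * z) * b ^ 2)
    (H3 : (y - z) ^ 2 * (3 + y + z) = (4 * (y + z) + y * z) * d ^ 2)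
    (hg : d ^ 2 = a ^ 2 + b ^ 2 - 2 * g) (hgt : g ^ 2 ≤ (1 - t) * (a ^ 2 * b ^ 2))
    (hm : x - y = 2 * m + a ^ 2) (hn : x - z = 2 * n + b ^ 2)
    (hG : (1 - x) * (a ^ 2 * b ^ 2 - g ^ 2) = m ^ 2 * b ^ 2 + n ^ 2 * a ^ 2 - 2 * m * n * g) :
    False := by
  have hεpos : 0 < ε := by rw [hε]; positivity
  have ht3 : t ^ 3 ≤ t := by
    have h : t ^ 2 ≤ 1 := pow_le_one₀ ht.le ht1
    calc t ^ 3 = t ^ 2 * t := by ring
      _ ≤ 1 * t := mul_le_mul_of_nonneg_right h ht.le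
      _ = t := one_mul t
  have hεt : ε ≤ t / 200000 := by rw [hε]; linarith
  have hε1 : ε ≤ 1 / 200000 := by linarith
  obtain ⟨E1, hE1⟩ : ∃ E1, E1 = (4 + x) * (y - x) * a ^ 2 + (x - y) ^ 3 := ⟨_, rfl⟩
  obtain ⟨E2, hE2⟩ : ∃ E2, E2 = (4 + x) * (z - x) * b ^ 2 + (x - z) ^ 3 := ⟨_, rfl⟩
  obtain ⟨E3, hE3⟩ : ∃ E3, E3 = (4 * (y + z - 2 * x) + (y * z - x ^ 2)) * d ^ 2
      - (y - z) ^ 2 * (y + z - 2 * x) := ⟨_, rfl⟩
  have bE1 : |E1| ≤ 18 * ε * a ^ 2 := by rw [hE1]; exact abs_E1 hx hx1 ha.le h1 haε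
  have bE2 : |E2| ≤ 18 * ε * b ^ 2 := by rw [hE2]; exact abs_E1 hx hx1 hb.le h2 hbε
  have bE3 : |E3| ≤ 36 * ε * d ^ 2 := by
    rw [hE3]
    exact abs_E3 hx hx1 hy hy1 (by linarith) (by linarith) h3
  obtain ⟨K, hK⟩ : ∃ K, K = 3 + 2 * x := ⟨_, rfl⟩
  obtain ⟨N, hN⟩ : ∃ N, N = 8 * x + x ^ 2 := ⟨_, rfl⟩
  have hN0 : 0 ≤ N := by rw [hN]; positivity
  have hN9 : N ≤ 9 := by
    have h : x ^ 2 ≤ 1 := pow_le_one₀ hx hx1
    rw [hN]; linarith
  have F1 : K * (x - y) ^ 2 = N * a ^ 2 + E1 := by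
    rw [hK, hN, hE1]; linear_combination H1
  have F2 : K * (x - z) ^ 2 = N * b ^ 2 + E2 := by
    rw [hK, hN, hE2]; linear_combination H2
  have F3 : K * (y - z) ^ 2 = N * d ^ 2 + E3 := by
    rw [hK, hN, hE3]; linear_combination H3
  obtain ⟨E, hE⟩ : ∃ E, E = (E1 + E2 - E3) / 2 := ⟨_, rfl⟩
  have F4 : K * ((x - y) * (x - z)) = N * g + E := by
    rw [hE]
    have : K * (y - z) ^ 2 = K * (x - y) ^ 2 + K * (x - z) ^ 2 - 2 * (K * ((x - y) * (x - z))) := by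
      ring
    rw [F1, F2, F3, hg] at this
    linarith
  -- size of the error
  have hab4 : a ^ 2 + b ^ 2 ≤ 4 * (a * b) := by
    have h4 := mul_le_mul_of_nonneg_left hab ha.le
    have h5 := mul_le_mul_of_nonneg_left hba hb.le
    nlinarith only [h4, h5]
  have hdab : d ^ 2 ≤ a * b := by
    rw [pow_two]
    exact mul_le_mul hda hdb hd ha.le
  have bE : |E| ≤ 54 * ε * (a * b) := by
    rw [hE, abs_div, abs_of_pos (by norm_num : (0:ℝ) < 2)]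
    have : |E1 + E2 - E3| ≤ |E1| + |E2| + |E3| := by
      calc |E1 + E2 - E3| ≤ |E1 + E2| + |E3| := abs_sub _ _
        _ ≤ |E1| + |E2| + |E3| := by linarith [abs_add_le E1 E2]
    have h5 : 36 * ε * d ^ 2 ≤ 36 * ε * (a * b) := by
      apply mul_le_mul_of_nonneg_left hdab (by positivity)
    have h6 : 18 * ε * (a ^ 2 + b ^ 2) ≤ 18 * ε * (4 * (a * b)) := by
      apply mul_le_mul_of_nonneg_left hab4 (by positivity)
    linarith
  have hS : 0 < a ^ 2 * b ^ 2 := by positivity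
  have bg : |g| ≤ a * b := by
    apply abs_le_of_sq_le_sq _ (by positivity)
    nlinarith only [hgt, mul_pos ht hS]
  have F5 : N ^ 2 * (a ^ 2 * b ^ 2 - g ^ 2)
      = 2 * (N * (g * E)) + E ^ 2 - N * (a ^ 2 * E2 + b ^ 2 * E1) - E1 * E2 := by
    have : (K * (x - y) ^ 2) * (K * (x - z) ^ 2) = (K * ((x - y) * (x - z))) ^ 2 := by ring
    rw [F1, F2, F4] at this
    linear_combination this
  have c1 : g * E ≤ 54 * ε * (a ^ 2 * b ^ 2) := by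
    calc g * E ≤ |g * E| := le_abs_self _
      _ = |g| * |E| := abs_mul _ _
      _ ≤ (a * b) * (54 * ε * (a * b)) := mul_le_mul bg bE (abs_nonneg _) (by positivity)
      _ = 54 * ε * (a ^ 2 * b ^ 2) := by ring
  have c2 : E ^ 2 ≤ ε * (a ^ 2 * b ^ 2) := by
    have : |E| ^ 2 ≤ (54 * ε * (a * b)) ^ 2 := pow_le_pow_left₀ (abs_nonneg _) bE 2
    rw [sq_abs] at this
    have h7 : (54 * ε * (a * b)) ^ 2 = (2916 * ε) * ε * (a ^ 2 * b ^ 2) := by ring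
    have h8 : (2916 * ε) * ε * (a ^ 2 * b ^ 2) ≤ 1 * ε * (a ^ 2 * b ^ 2) := by
      apply mul_le_mul_of_nonneg_right _ hS.le
      apply mul_le_mul_of_nonneg_right _ hεpos.le
      linarith
    linarith
  have c3 : -(a ^ 2 * E2 + b ^ 2 * E1) ≤ 36 * ε * (a ^ 2 * b ^ 2) := by
    have h7 : -E2 ≤ 18 * ε * b ^ 2 := le_trans (neg_le_abs _) bE2
    have h8 : -E1 ≤ 18 * ε * a ^ 2 := le_trans (neg_le_abs _) bE1
    have h9 := mul_le_mul_of_nonneg_left h7 (sq_nonneg a)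
    have h10 := mul_le_mul_of_nonneg_left h8 (sq_nonneg b)
    nlinarith only [h9, h10]
  have c4 : -(E1 * E2) ≤ ε * (a ^ 2 * b ^ 2) := by
    calc -(E1 * E2) ≤ |E1 * E2| := neg_le_abs _
      _ = |E1| * |E2| := abs_mul _ _
      _ ≤ (18 * ε * a ^ 2) * (18 * ε * b ^ 2) := mul_le_mul bE1 bE2 (abs_nonneg _) (by positivity)
      _ = (324 * ε) * ε * (a ^ 2 * b ^ 2) := by ring
      _ ≤ 1 * ε * (a ^ 2 * b ^ 2) := by
        apply mul_le_mul_of_nonneg_right _ hS.le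
        apply mul_le_mul_of_nonneg_right _ hεpos.le
        linarith
      _ = ε * (a ^ 2 * b ^ 2) := by ring
  have F6 : N ^ 2 * (t * (a ^ 2 * b ^ 2)) ≤ 1300 * ε * (a ^ 2 * b ^ 2) := by
    have h7 : N ^ 2 * (t * (a ^ 2 * b ^ 2)) ≤ N ^ 2 * (a ^ 2 * b ^ 2 - g ^ 2) := by
      apply mul_le_mul_of_nonneg_left _ (sq_nonneg N)
      linarith
    have h8 : N * (g * E) ≤ 9 * (54 * ε * (a ^ 2 * b ^ 2)) := by
      calc N * (g * E) ≤ N * (54 * ε * (a ^ 2 * b ^ 2)) := mul_le_mul_of_nonneg_left c1 hN0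
        _ ≤ 9 * (54 * ε * (a ^ 2 * b ^ 2)) := by
          apply mul_le_mul_of_nonneg_right hN9 (by positivity)
    have h9 : N * (-(a ^ 2 * E2 + b ^ 2 * E1)) ≤ 9 * (36 * ε * (a ^ 2 * b ^ 2)) := by
      calc N * (-(a ^ 2 * E2 + b ^ 2 * E1)) ≤ N * (36 * ε * (a ^ 2 * b ^ 2)) :=
            mul_le_mul_of_nonneg_left c3 hN0
        _ ≤ 9 * (36 * ε * (a ^ 2 * b ^ 2)) := by
          apply mul_le_mul_of_nonneg_right hN9 (by positivity)
    nlinarith only [h7, h8, h9, F5, c2, c4, mul_pos hεpos hS]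
  have F7 : N ^ 2 * t ≤ 1300 * ε := by
    have : (N ^ 2 * t) * (a ^ 2 * b ^ 2) ≤ (1300 * ε) * (a ^ 2 * b ^ 2) := by linarith
    exact le_of_mul_le_mul_right this hS
  have F8 : N ≤ t / 10 := by
    have h7 : N ^ 2 * t ≤ (t / 10) ^ 2 * t := by
      calc N ^ 2 * t ≤ 1300 * ε := F7
        _ = 1300 * (t ^ 3 / 200000) := by rw [hε]
        _ ≤ (t / 10) ^ 2 * t := by nlinarith only [pow_pos ht 3]
    have h8 : N ^ 2 ≤ (t / 10) ^ 2 := le_of_mul_le_mul_right h7 ht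
    exact le_of_sq_le_sq h8 (by positivity)
  have hxs : x ≤ 1 / 2 := by nlinarith only [hN, F8, ht1, sq_nonneg x]
  have hK3 : 3 ≤ K := by rw [hK]; linarith
  have D1 : (x - y) ^ 2 ≤ t / 29 * a ^ 2 := by
    have h7 : 3 * (x - y) ^ 2 ≤ K * (x - y) ^ 2 := mul_le_mul_of_nonneg_right hK3 (sq_nonneg _)
    have h8 : E1 ≤ 18 * ε * a ^ 2 := le_trans (le_abs_self _) bE1
    have h9 : N * a ^ 2 ≤ t / 10 * a ^ 2 := mul_le_mul_of_nonneg_right F8 (sq_nonneg _)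
    have h10 : 18 * ε * a ^ 2 ≤ t / 1000 * a ^ 2 := by
      apply mul_le_mul_of_nonneg_right _ (sq_nonneg _)
      linarith
    nlinarith only [h7, h8, h9, h10, F1, mul_pos ht (pow_pos ha 2)]
  have D2 : (x - z) ^ 2 ≤ t / 29 * b ^ 2 := by
    have h7 : 3 * (x - z) ^ 2 ≤ K * (x - z) ^ 2 := mul_le_mul_of_nonneg_right hK3 (sq_nonneg _)
    have h8 : E2 ≤ 18 * ε * b ^ 2 := le_trans (le_abs_self _) bE2
    have h9 : N * b ^ 2 ≤ t / 10 * b ^ 2 := mul_le_mul_of_nonneg_right F8 (sq_nonneg _)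
    have h10 : 18 * ε * b ^ 2 ≤ t / 1000 * b ^ 2 := by
      apply mul_le_mul_of_nonneg_right _ (sq_nonneg _)
      linarith
    nlinarith only [h7, h8, h9, h10, F2, mul_pos ht (pow_pos hb 2)]
  have hsm : ∀ s : ℝ, 0 < s → s ≤ ε → (s ^ 2) ^ 2 ≤ t / 1000 * s ^ 2 := by
    intro s hs hsε
    have h0 : s ^ 2 ≤ t / 1000 := by
      have h00 : s * s ≤ ε * 1 := mul_le_mul hsε (by linarith) hs.le hεpos.le
      rw [pow_two]; linarith
    calc (s ^ 2) ^ 2 = s ^ 2 * s ^ 2 := by ring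
      _ ≤ t / 1000 * s ^ 2 := mul_le_mul_of_nonneg_right h0 (sq_nonneg s)
  have M1 : m ^ 2 ≤ t / 50 * a ^ 2 := by
    have h7 : m = ((x - y) - a ^ 2) / 2 := by linarith
    have h8 := hsm a ha haε
    rw [h7]
    nlinarith only [h8, D1, sq_nonneg ((x - y) + a ^ 2), mul_pos ht (pow_pos ha 2)]
  have M2 : n ^ 2 ≤ t / 50 * b ^ 2 := by
    have h7 : n = ((x - z) - b ^ 2) / 2 := by linarith
    have h8 := hsm b hb hbε
    rw [h7]
    nlinarith only [h8, D2, sq_nonneg ((x - z) + b ^ 2), mul_pos ht (pow_pos hb 2)]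
  -- Gram determinant
  have G1 : m ^ 2 * b ^ 2 ≤ t / 50 * (a ^ 2 * b ^ 2) := by
    calc m ^ 2 * b ^ 2 ≤ (t / 50 * a ^ 2) * b ^ 2 := mul_le_mul_of_nonneg_right M1 (sq_nonneg _)
      _ = t / 50 * (a ^ 2 * b ^ 2) := by ring
  have G2 : n ^ 2 * a ^ 2 ≤ t / 50 * (a ^ 2 * b ^ 2) := by
    calc n ^ 2 * a ^ 2 ≤ (t / 50 * b ^ 2) * a ^ 2 := mul_le_mul_of_nonneg_right M2 (sq_nonneg _)
      _ = t / 50 * (a ^ 2 * b ^ 2) := by ring
  have G3 : -(2 * m * n * g) ≤ m ^ 2 * b ^ 2 + n ^ 2 * a ^ 2 := by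
    have h7 : -(2 * m * n * g) ≤ 2 * (|m| * |n|) * (a * b) := by
      calc -(2 * m * n * g) ≤ |2 * m * n * g| := neg_le_abs _
        _ = 2 * (|m| * |n|) * |g| := by
          rw [abs_mul, abs_mul, abs_mul, abs_of_pos (by norm_num : (0:ℝ) < 2)]; ring
        _ ≤ 2 * (|m| * |n|) * (a * b) := by
          apply mul_le_mul_of_nonneg_left bg (by positivity)
    have h8 := sq_nonneg (|m| * b - |n| * a)
    have h9 : (|m| * b - |n| * a) ^ 2 = m ^ 2 * b ^ 2 + n ^ 2 * a ^ 2 - 2 * (|m| * |n|) * (a * b) := by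
      rw [sub_sq, mul_pow, mul_pow, sq_abs, sq_abs]; ring
    linarith
  have G4 : 1 / 2 * (t * (a ^ 2 * b ^ 2)) ≤ (1 - x) * (a ^ 2 * b ^ 2 - g ^ 2) := by
    apply mul_le_mul (by linarith) (by linarith) (by positivity) (by linarith)
  have G5 : 0 < t * (a ^ 2 * b ^ 2) := by positivity
  nlinarith only [G1, G2, G3, G4, G5, hG]


/-- Distances between images. -/
lemma rad_dist {p q : EuclideanSpace ℝ (Fin 2)} (h : ‖rad p - rad q‖ = ‖p - q‖) :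
    (‖q‖ ^ 2 - ‖p‖ ^ 2) ^ 2 * (5 - ‖p‖ ^ 2 - ‖q‖ ^ 2)
      = ((5 - ‖p‖ ^ 2) * (5 - ‖q‖ ^ 2) - 16) * ‖p - q‖ ^ 2 := by
  have h1 : ‖rad p - rad q‖ ^ 2 = ‖p - q‖ ^ 2 := by rw [h]
  rw [norm_sub_sq_real] at h1
  unfold rad at h1
  rw [norm_smul, norm_smul, inner_smul_left, inner_smul_right, mul_pow, mul_pow,
    Real.norm_eq_abs, Real.norm_eq_abs, sq_abs, sq_abs] at h1
  simp only [conj_trivial] at h1
  have h2 := norm_sub_sq_real p q
  have h3 : (inner ℝ p q : ℝ) = (‖p‖ ^ 2 + ‖q‖ ^ 2 - ‖p - q‖ ^ 2) / 2 := by linarith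
  rw [h3] at h1
  nlinarith only [h1]

lemma gram (p u w : EuclideanSpace ℝ (Fin 2)) :
    ‖p‖ ^ 2 * (‖u‖ ^ 2 * ‖w‖ ^ 2 - (inner ℝ u w : ℝ) ^ 2)
      = (inner ℝ p u : ℝ) ^ 2 * ‖w‖ ^ 2 + (inner ℝ p w : ℝ) ^ 2 * ‖u‖ ^ 2
        - 2 * (inner ℝ p u : ℝ) * (inner ℝ p w : ℝ) * (inner ℝ u w : ℝ) := by
  simp only [EuclideanSpace.norm_sq_eq, Fin.sum_univ_two, PiLp.inner_apply, Real.norm_eq_abs,
    sq_abs, RCLike.inner_apply, conj_trivial]
  ring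

lemma no_small {t : ℝ} (ht : 0 < t) (ht1 : t ≤ 1) {p q r : EuclideanSpace ℝ (Fin 2)}
    (hp : ‖p‖ ≤ 1) (hq : ‖q‖ ≤ 1) (hr : ‖r‖ ≤ 1) (hpq : p ≠ q) (hpr : p ≠ r)
    (h1 : dist p q < t ^ 3 / 200000) (h2 : dist p r < t ^ 3 / 200000)
    (h3 : dist q r ≤ dist p q) (h4 : dist q r ≤ dist p r)
    (hg : (inner ℝ (q - p) (r - p) : ℝ) ^ 2 ≤ (1 - t) * (‖q - p‖ ^ 2 * ‖r - p‖ ^ 2))
    (e1 : dist (rad p) (rad q) = dist p q) (e2 : dist (rad p) (rad r) = dist p r)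
    (e3 : dist (rad q) (rad r) = dist q r) : False := by
  have hsq : ∀ v : EuclideanSpace ℝ (Fin 2), ‖v‖ ≤ 1 → ‖v‖ ^ 2 ≤ 1 := fun v hv =>
    pow_le_one₀ (norm_nonneg v) hv
  have hdiff : ∀ v w : EuclideanSpace ℝ (Fin 2), ‖v‖ ≤ 1 → ‖w‖ ≤ 1 →
      |(1 - ‖v‖ ^ 2) - (1 - ‖w‖ ^ 2)| ≤ 2 * ‖v - w‖ := by
    intro v w hv hw
    have : (1 - ‖v‖ ^ 2) - (1 - ‖w‖ ^ 2) = (‖w‖ - ‖v‖) * (‖w‖ + ‖v‖) := by ring
    rw [this, abs_mul, abs_of_nonneg (by positivity : 0 ≤ ‖w‖ + ‖v‖)]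
    have h5 : |‖w‖ - ‖v‖| ≤ ‖v - w‖ := by
      rw [norm_sub_rev]
      exact abs_norm_sub_norm_le w v
    have h6 : |‖w‖ - ‖v‖| * (‖w‖ + ‖v‖) ≤ ‖v - w‖ * 2 := by
      apply mul_le_mul h5 (by linarith) (by positivity) (norm_nonneg _)
    linarith
  simp only [dist_eq_norm] at h1 h2 h3 h4 e1 e2 e3
  have hapos : 0 < ‖p - q‖ := norm_pos_iff.2 (sub_ne_zero.2 hpq)
  have hbpos : 0 < ‖p - r‖ := norm_pos_iff.2 (sub_ne_zero.2 hpr)
  have tri1 : ‖p - q‖ ≤ ‖p - r‖ + ‖q - r‖ := by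
    have := norm_sub_le_norm_sub_add_norm_sub p r q
    rw [norm_sub_rev r q] at this
    exact this
  have tri2 : ‖p - r‖ ≤ ‖p - q‖ + ‖q - r‖ := norm_sub_le_norm_sub_add_norm_sub p q r
  have k1 := rad_dist e1
  have k2 := rad_dist e2
  have k3 := rad_dist e3
  have hqr : q - r = (q - p) - (r - p) := by abel
  have hqr2 : ‖q - r‖ ^ 2 = ‖p - q‖ ^ 2 + ‖p - r‖ ^ 2 - 2 * (inner ℝ (q - p) (r - p) : ℝ) := by
    rw [hqr, norm_sub_sq_real, norm_sub_rev p q, norm_sub_rev p r]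
    ring
  have hm : (1 - ‖p‖ ^ 2) - (1 - ‖q‖ ^ 2) = 2 * (inner ℝ p (q - p) : ℝ) + ‖p - q‖ ^ 2 := by
    have h5 : ‖q‖ ^ 2 = ‖p + (q - p)‖ ^ 2 := by congr 2; abel
    rw [norm_sub_rev p q, h5, norm_add_sq_real]
    ring
  have hn : (1 - ‖p‖ ^ 2) - (1 - ‖r‖ ^ 2) = 2 * (inner ℝ p (r - p) : ℝ) + ‖p - r‖ ^ 2 := by
    have h5 : ‖r‖ ^ 2 = ‖p + (r - p)‖ ^ 2 := by congr 2; abel
    rw [norm_sub_rev p r, h5, norm_add_sq_real]
    ring
  have hG := gram p (q - p) (r - p)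
  rw [norm_sub_rev q p, norm_sub_rev r p] at hG hg
  refine core (ε := t ^ 3 / 200000) (x := 1 - ‖p‖ ^ 2) (y := 1 - ‖q‖ ^ 2) (z := 1 - ‖r‖ ^ 2)
    (a := ‖p - q‖) (b := ‖p - r‖) (d := ‖q - r‖) (g := (inner ℝ (q - p) (r - p) : ℝ))
    (m := (inner ℝ p (q - p) : ℝ)) (n := (inner ℝ p (r - p) : ℝ))
    ht ht1 rfl hapos hbpos (norm_nonneg _) h1.le h2.le h3 h4 (by linarith) (by linarith)
    (by linarith [hsq p hp]) (by linarith [sq_nonneg ‖p‖]) (by linarith [hsq q hq])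
    (by linarith [sq_nonneg ‖q‖]) (hdiff p q hp hq) (hdiff p r hp hr) (hdiff q r hq hr)
    (by linear_combination k1) (by linear_combination k2) (by linear_combination k3)
    hqr2 hg hm hn (by linear_combination hG)

/-- **Main theorem.** There is a homeomorphism `T` of the closed unit disk onto itself such that,
for every prescribed triple of angles, all sufficiently small triangles with these angles fail to be
congruent to their images. -/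
theorem result :
    ∃ T : Disk ≃ₜ Disk, ∀ α β γ : ℝ, 0 < α → 0 < β → 0 < γ → α + β + γ = Real.pi →
      ∃ ε : ℝ, 0 < ε ∧ ∀ p₁ p₂ p₃ : Disk, HasAngles α β γ p₁ p₂ p₃ →
        dist p₁ p₂ < ε → dist p₁ p₃ < ε → dist p₂ p₃ < ε → ¬ CongruentToImage T p₁ p₂ p₃ := by
  refine ⟨T, ?_⟩
  intro α β γ hα hβ hγ hsum
  have hsin : ∀ θ : ℝ, 0 < θ → θ < Real.pi → 0 < Real.sin θ ^ 2 ∧ Real.sin θ ^ 2 ≤ 1 := by
    intro θ h0 h1
    exact ⟨pow_pos (Real.sin_pos_of_pos_of_lt_pi h0 h1) 2, Real.sin_sq_le_one θ⟩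
  obtain ⟨a1, a2⟩ := hsin α hα (by linarith)
  obtain ⟨b1, b2⟩ := hsin β hβ (by linarith)
  obtain ⟨c1, c2⟩ := hsin γ hγ (by linarith)
  obtain ⟨t, ht⟩ : ∃ t, t = min (Real.sin α ^ 2) (min (Real.sin β ^ 2) (Real.sin γ ^ 2)) := ⟨_, rfl⟩
  have ht0 : 0 < t := by rw [ht]; exact lt_min a1 (lt_min b1 c1)
  have htα : t ≤ Real.sin α ^ 2 := by rw [ht]; exact min_le_left _ _
  have htβ : t ≤ Real.sin β ^ 2 := by
    rw [ht]; exact le_trans (min_le_right _ _) (min_le_left _ _)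
  have htγ : t ≤ Real.sin γ ^ 2 := by
    rw [ht]; exact le_trans (min_le_right _ _) (min_le_right _ _)
  have ht1 : t ≤ 1 := le_trans htα a2
  refine ⟨t ^ 3 / 200000, by positivity, ?_⟩
  intro p₁ p₂ p₃ ⟨hcol, e1, e2, e3⟩ d1 d2 d3 ⟨i1, i2, i3⟩
  -- distinctness
  have n12 : (p₁ : EuclideanSpace ℝ (Fin 2)) ≠ p₂ := by
    intro h
    apply hcol
    rw [h]
    simp only [Set.mem_singleton_iff, Set.mem_insert_iff, true_or, Set.insert_eq_of_mem]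
    exact collinear_pair ℝ _ _
  have n13 : (p₁ : EuclideanSpace ℝ (Fin 2)) ≠ p₃ := by
    intro h
    apply hcol
    rw [h, Set.insert_comm]
    simp only [Set.mem_singleton_iff, Set.insert_eq_of_mem]
    exact collinear_pair ℝ _ _
  have n23 : (p₂ : EuclideanSpace ℝ (Fin 2)) ≠ p₃ := by
    intro h
    apply hcol
    rw [h]
    simp only [Set.mem_singleton_iff, Set.insert_eq_of_mem]
    exact collinear_pair ℝ _ _
  have m1 : ‖(p₁ : EuclideanSpace ℝ (Fin 2))‖ ≤ 1 := by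
    have := p₁.2; rwa [mem_closedBall, dist_zero_right] at this
  have m2 : ‖(p₂ : EuclideanSpace ℝ (Fin 2))‖ ≤ 1 := by
    have := p₂.2; rwa [mem_closedBall, dist_zero_right] at this
  have m3 : ‖(p₃ : EuclideanSpace ℝ (Fin 2))‖ ≤ 1 := by
    have := p₃.2; rwa [mem_closedBall, dist_zero_right] at this
  simp only [Subtype.dist_eq, T_apply] at d1 d2 d3 i1 i2 i3
  -- inner products from angles
  have hang : ∀ (θ : ℝ) (x y z : EuclideanSpace ℝ (Fin 2)), EuclideanGeometry.angle x y z = θ →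
      t ≤ Real.sin θ ^ 2 →
      (inner ℝ (x - y) (z - y) : ℝ) ^ 2 ≤ (1 - t) * (‖x - y‖ ^ 2 * ‖z - y‖ ^ 2) := by
    intro θ x y z hθ htθ
    have h5 : (inner ℝ (x - y) (z - y) : ℝ) = Real.cos θ * (‖x - y‖ * ‖z - y‖) := by
      rw [← hθ]
      exact (InnerProductGeometry.cos_angle_mul_norm_mul_norm (x - y) (z - y)).symm
    rw [h5, mul_pow, mul_pow]
    apply mul_le_mul_of_nonneg_right _ (by positivity)
    rw [Real.cos_sq']
    linarith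
  -- choose the vertex opposite to a shortest side
  rcases le_total (dist (p₂ : EuclideanSpace ℝ (Fin 2)) p₃) (dist (p₁ : EuclideanSpace ℝ (Fin 2)) p₂)
    with l1 | l1
  · rcases le_total (dist (p₂ : EuclideanSpace ℝ (Fin 2)) p₃)
      (dist (p₁ : EuclideanSpace ℝ (Fin 2)) p₃) with l2 | l2
    · -- `p₂p₃` is shortest
      exact no_small ht0 ht1 m1 m2 m3 n12 n13 d1 d2 l1 l2 (hang α _ _ _ e1 htα) i1 i2 i3
    · -- `p₁p₃` is shortest
      have l3 : dist (p₁ : EuclideanSpace ℝ (Fin 2)) p₃ ≤ dist (p₁ : EuclideanSpace ℝ (Fin 2)) p₂ :=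
        le_trans l2 l1
      rw [dist_comm (p₁ : EuclideanSpace ℝ (Fin 2)) p₂] at d1 l3 i1
      rw [dist_comm (rad p₁)] at i1
      exact no_small ht0 ht1 m2 m1 m3 n12.symm n23 d1 d3 l3 l2 (hang β _ _ _ e2 htβ) i1 i3 i2
  · rcases le_total (dist (p₁ : EuclideanSpace ℝ (Fin 2)) p₂)
      (dist (p₁ : EuclideanSpace ℝ (Fin 2)) p₃) with l2 | l2
    · -- `p₁p₂` is shortest
      rw [dist_comm (p₂ : EuclideanSpace ℝ (Fin 2)) p₃] at d3 l1 i3
      rw [dist_comm (rad p₂)] at i3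
      rw [dist_comm (p₁ : EuclideanSpace ℝ (Fin 2)) p₃] at d2 l2 i2
      rw [dist_comm (rad p₁) (rad p₃)] at i2
      exact no_small ht0 ht1 m3 m1 m2 n13.symm n23.symm d2 d3 l2 l1 (hang γ _ _ _ e3 htγ) i2 i3 i1
    · -- `p₁p₃` is shortest
      have l3 : dist (p₁ : EuclideanSpace ℝ (Fin 2)) p₃ ≤ dist (p₂ : EuclideanSpace ℝ (Fin 2)) p₃ :=
        le_trans l2 l1
      rw [dist_comm (p₁ : EuclideanSpace ℝ (Fin 2)) p₂] at d1 l2 i1
      rw [dist_comm (rad p₁)] at i1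
      exact no_small ht0 ht1 m2 m1 m3 n12.symm n23 d1 d3 l2 l3 (hang β _ _ _ e2 htβ) i1 i3 i2

end Pool.Agent.Results.MP_623bad_gt.NoSimilarSmall
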